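import Pool.Agent.K4H11.RFRS.Data
import Pool.Agent.R632.VRC.Glue
import Pool.Agent.R632.VRC.Fol

/-! Cocycles over amalgams. -/

set_option linter.unusedSectionVars false
set_option linter.dupNamespace false
set_option autoImplicit false

namespace Pool.Agent.J4.H7.RF

open Pool.Agent.R632.VRC Pool.Agent.K4H11.RFRS

universe u v

/-- A cocycle with values in an abelian group which vanishes on the stabilizers is a coboundary. -/
lemma trivialize {H Γ X B : Type*} [Group H] [Group Γ] [MulAction Γ X] [AddCommGroup B] (e : H →* Γ)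
    (D : H → X → B) (hD : ∀ h h' x, D (h * h') x = D h (e h' • x) + D h' x)
    (h0 : ∀ h x, e h • x = x → D h x = 0) : ∃ d : X → B, ∀ h x, D h x = d (e h • x) - d x := by
  classical
  let r : Setoid X :=
    { r := fun x x' => ∃ h, e h • x = x'
      iseqv :=
        { refl := fun x => ⟨1, by rw [map_one, one_smul]⟩
          symm := by
            rintro x _ ⟨h, rfl⟩
            exact ⟨h⁻¹, by rw [map_inv, inv_smul_smul]⟩
          trans := by
            rintro x _ _ ⟨h, rfl⟩ ⟨h', rfl⟩
            exact ⟨h' * h, by rw [map_mul, mul_smul]⟩ } }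
  let rp : X → X := fun x => Quotient.out (Quotient.mk r x)
  have hrp : ∀ x, ∃ k, e k • (rp x) = x := fun x => Quotient.exact (Quotient.out_eq (Quotient.mk r x))
  have hrp' : ∀ h x, rp (e h • x) = rp x := by
    intro h x
    have h1 : (Quotient.mk r (e h • x)) = Quotient.mk r x :=
      (Quotient.sound (s := r) (show r.r x (e h • x) from ⟨h, rfl⟩)).symm
    show Quotient.out (Quotient.mk r (e h • x)) = Quotient.out (Quotient.mk r x)
    rw [h1]
  choose k hk using hrp
  refine ⟨fun x => D (k x) (rp x), fun h x => ?_⟩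
  have h1 : D (h * k x) (rp x) = D h x + D (k x) (rp x) := by rw [hD, hk]
  have h2 : h * k x = k (e h • x) * ((k (e h • x))⁻¹ * (h * k x)) := by group
  have h3 : e ((k (e h • x))⁻¹ * (h * k x)) • rp x = rp x := by
    rw [map_mul, map_mul, mul_smul, mul_smul, hk, map_inv, inv_smul_eq_iff]
    have h4 := hk (e h • x)
    rw [hrp'] at h4
    exact h4.symm
  have h5 : D (h * k x) (rp x) = D (k (e h • x)) (rp (e h • x)) := by
    rw [h2, hD, h3, h0 _ _ h3, add_zero, hrp']
  show D h x = D (k (e h • x)) (rp (e h • x)) - D (k x) (rp x)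
  rw [← h5, h1]
  abel

variable {G : Bool → Type u} [∀ i, Group (G i)] {H : Type u} [Group H] {φ : ∀ i, H →* G i}
  {Γ : Type u} [Group Γ] {o : ∀ i, G i →* Γ}

/-- induction over the generators -/
lemma gen_ind (hΓ : Amalg φ o) {p : Γ → Prop} (h1 : p 1) (h2 : ∀ k g y, p y → p (o k g * y)) :
    ∀ y, p y := by
  intro y
  obtain ⟨L, rfl⟩ := hΓ.gen y
  induction L with
  | nil => exact h1
  | cons a L ih =>
    rw [List.map_cons, List.prod_cons]
    exact h2 _ _ _ ih

/-- cocycles with integral values -/
lemma coc_int (hΓ : Amalg φ o) {X : Type u} [MulAction Γ X] (c : ∀ k, G k → X → ℤ)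
    (hc : ∀ k g g' x, c k (g * g') x = c k g (o k g' • x) + c k g' x)
    (hH : ∀ k k' h x, c k (φ k h) x = c k' (φ k' h) x) :
    ∃ Φ : Γ → X → ℤ, (∀ y z x, Φ (y * z) x = Φ y (z • x) + Φ z x) ∧
      ∀ k g x, Φ (o k g) x = c k g x := by
  let ρ : ∀ k, G k →* Wr X := fun k => MonoidHom.mk' (fun g => ⟨MulAction.toPerm (o k g), c k g⟩) (by
    intro g g'
    apply Wr.ext
    · apply Equiv.ext
      intro q
      show o k (g * g') • q = o k g • (o k g' • q)
      rw [map_mul, mul_smul]
    · funext q
      rw [Wr.mul_t]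
      exact hc k g g' q)
  obtain ⟨F, hF⟩ := hΓ.lift (Wr X) ρ (by
    intro i j h
    apply Wr.ext
    · apply Equiv.ext
      intro q
      show o i (φ i h) • q = o j (φ j h) • q
      rw [hΓ.comp i j]
    · funext q
      exact hH i j h q)
  have hs : ∀ y x, (F y).s x = y • x := by
    refine gen_ind hΓ (fun x => ?_) (fun k g y ih x => ?_)
    · rw [map_one, one_smul]
      rfl
    · rw [map_mul, Wr.mul_s, Equiv.Perm.mul_apply, ih, hF, mul_smul]
      rfl
  refine ⟨fun y x => (F y).t x, fun y z x => ?_, fun k g x => ?_⟩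
  · show (F (y * z)).t x = (F y).t (z • x) + (F z).t x
    rw [map_mul, Wr.mul_t, hs]
  · show (F (o k g)).t x = _
    rw [hF]
    rfl

/-- cocycles with values in a group -/
lemma coc_grp (hΓ : Amalg φ o) {X : Type u} [MulAction Γ X] {B : Type u} [Group B]
    (c : ∀ k, G k → X → B) (hc : ∀ k g g' x, c k (g * g') x = c k g (o k g' • x) * c k g' x)
    (hH : ∀ k k' h x, c k (φ k h) x = c k' (φ k' h) x) :
    ∃ Φ : Γ → X → B, (∀ y z x, Φ (y * z) x = Φ y (z • x) * Φ z x) ∧
      ∀ k g x, Φ (o k g) x = c k g x := by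
  let ρ : ∀ k, G k →* WrG B X := fun k => MonoidHom.mk' (fun g =>
    ⟨MulAction.toPerm (o k g), c k g⟩) (by
    intro g g'
    apply WrG.ext
    · apply Equiv.ext
      intro q
      show o k (g * g') • q = o k g • (o k g' • q)
      rw [map_mul, mul_smul]
    · funext q
      rw [WrG.mul_t]
      exact hc k g g' q)
  obtain ⟨F, hF⟩ := hΓ.lift (WrG B X) ρ (by
    intro i j h
    apply WrG.ext
    · apply Equiv.ext
      intro q
      show o i (φ i h) • q = o j (φ j h) • q
      rw [hΓ.comp i j]
    · funext q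
      exact hH i j h q)
  have hs : ∀ y x, (F y).s x = y • x := by
    refine gen_ind hΓ (fun x => ?_) (fun k g y ih x => ?_)
    · rw [map_one, one_smul]
      rfl
    · rw [map_mul, WrG.mul_s, Equiv.Perm.mul_apply, ih, hF, mul_smul]
      rfl
  refine ⟨fun y x => (F y).t x, fun y z x => ?_, fun k g x => ?_⟩
  · show (F (y * z)).t x = (F y).t (z • x) * (F z).t x
    rw [map_mul, WrG.mul_t, hs]
  · show (F (o k g)).t x = _
    rw [hF]
    rfl

/-- Cocycles with values in `ℤ / m` which vanish on the elliptic elements are reductions of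
integral cocycles, up to coboundaries. -/
lemma ab (hΓ : Amalg φ o) (K : Subgroup Γ) (hK : K.Normal) (m : ℕ) (θ : Γ → Γ ⧸ K → ZMod m)
    (hθ : ∀ y z q, θ (y * z) q = θ y (z • q) + θ z q)
    (h0 : ∀ k g, o k g ∈ K → ∀ q, θ (o k g) q = 0) {x : Γ} (hx : x ∈ step m K) (q : Γ ⧸ K) :
    θ x q = 0 := by
  have hfix : ∀ (y : Γ) (q : Γ ⧸ K), y • q = q ↔ y ∈ K := by
    intro y q
    obtain ⟨z, rfl⟩ := QuotientGroup.mk_surjective q
    show (QuotientGroup.mk (y * z) : Γ ⧸ K) = QuotientGroup.mk z ↔ _
    rw [eq_comm, QuotientGroup.eq]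
    constructor
    · intro h
      have := hK.conj_mem _ h z
      convert this using 1
      group
    · intro h
      have := hK.conj_mem _ h z⁻¹
      convert this using 1
      group
  have htriv : ∀ k, ∃ d : Γ ⧸ K → ZMod m, ∀ g q, θ (o k g) q = d (o k g • q) - d q := by
    intro k
    refine trivialize (o k) (fun g q => θ (o k g) q) (fun h h' q => ?_) (fun g q hg => ?_)
    · show θ (o k (h * h')) q = _
      rw [map_mul, hθ]
    · exact h0 k g ((hfix _ _).mp hg) q
  choose β hβ using htriv
  let om : Γ ⧸ K → ZMod m := fun q => β true q - β false q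
  have hom : ∀ h q, om (o true (φ true h) • q) = om q := by
    intro h q
    have h1 := hβ true (φ true h) q
    have h2 := hβ false (φ false h) q
    rw [hΓ.comp false true h] at h2
    rw [h1] at h2
    show β true _ - β false _ = β true q - β false q
    linear_combination h2
  let omI : Γ ⧸ K → ℤ := fun q => (ZMod.cast (om q) : ℤ)
  have homI : ∀ q, ((omI q : ℤ) : ZMod m) = om q := fun q => ZMod.intCast_zmod_cast _
  obtain ⟨Φ, hΦ, hΦo⟩ := coc_int hΓ (X := Γ ⧸ K)
    (fun k g q => if k = true then omI (o k g • q) - omI q else 0) (by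
      intro k g g' q
      show (if k = true then omI (o k (g * g') • q) - omI q else 0) =
        (if k = true then omI (o k g • (o k g' • q)) - omI (o k g' • q) else 0) +
        (if k = true then omI (o k g' • q) - omI q else 0)
      rw [map_mul, mul_smul]
      split_ifs
      · ring
      · ring) (by
      have h1 : ∀ k h q, (if k = true then omI (o k (φ k h) • q) - omI q else 0) = 0 := by
        intro k h q
        split_ifs with hk
        · subst hk
          show (ZMod.cast (om (o true (φ true h) • q)) : ℤ) - ZMod.cast (om q) = 0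
          rw [hom, sub_self]
        · rfl
      intro k k' h q
      show (if k = true then omI (o k (φ k h) • q) - omI q else 0) =
        (if k' = true then omI (o k' (φ k' h) • q) - omI q else 0)
      rw [h1, h1])
  have key : ∀ y q, θ y q = (Φ y q : ZMod m) + β false (y • q) - β false q := by
    refine gen_ind hΓ (fun q => ?_) (fun k g y ih q => ?_)
    · have h1 : θ 1 q = 0 := by
        have := hθ 1 1 q
        rw [mul_one, one_smul] at this
        exact left_eq_add.mp this
      have h2 : Φ 1 q = 0 := by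
        have := hΦ 1 1 q
        rw [mul_one, one_smul] at this
        exact left_eq_add.mp this
      rw [h1, h2, one_smul]
      push_cast
      ring
    · rw [hθ, ih, hΦ, hβ, hΦo, mul_smul]
      rcases k with _ | _
      · simp only [Bool.false_eq_true, if_false]
        push_cast
        ring
      · simp only [if_true]
        push_cast
        rw [homI, homI]
        show _ = (β true (o true g • y • q) - β false (o true g • y • q)) -
          (β true (y • q) - β false (y • q)) + _ + _ - _
        ring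
  have hxK : x ∈ K := hx.1
  have hdvd : (m : ℤ) ∣ Φ x q := by
    refine hx.2 (fun y => Φ y q) ?_
    intro a _ b hb
    show Φ (a * b) q = Φ a q + Φ b q
    rw [hΦ, (hfix b q).mpr hb]
  rw [key, (hfix x q).mpr hxK, (ZMod.intCast_zmod_eq_zero_iff_dvd _ _).mpr hdvd]
  ring

/-- The form with homomorphisms. -/
lemma ab' (hΓ : Amalg φ o) (K : Subgroup Γ) (hK : K.Normal) (m : ℕ) (θ : Γ → ZMod m)
    (hθ : ∀ a ∈ K, ∀ b ∈ K, θ (a * b) = θ a + θ b)
    (h0 : ∀ k g, o k g ∈ K → ∀ z, θ (z⁻¹ * o k g * z) = 0) {x : Γ} (hx : x ∈ step m K) :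
    θ x = 0 := by
  have hmem : ∀ (y : Γ) (q : Γ ⧸ K), (Quotient.out (y • q))⁻¹ * y * Quotient.out q ∈ K := by
    intro y q
    rw [mul_assoc, ← QuotientGroup.eq, QuotientGroup.out_eq']
    conv_lhs => rw [← QuotientGroup.out_eq' q]
    rfl
  have h1 := ab hΓ K hK m (fun y q => θ ((Quotient.out (y • q))⁻¹ * y * Quotient.out q))
    (fun y z q => by
      show θ ((Quotient.out ((y * z) • q))⁻¹ * (y * z) * Quotient.out q) = _
      rw [← hθ _ (hmem y (z • q)) _ (hmem z q), mul_smul]
      congr 1
      group)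
    (fun k g hg q => by
      show θ ((Quotient.out (o k g • q))⁻¹ * o k g * Quotient.out q) = 0
      have h2 : o k g • q = q := by
        obtain ⟨z, rfl⟩ := QuotientGroup.mk_surjective q
        show (QuotientGroup.mk (o k g * z) : Γ ⧸ K) = QuotientGroup.mk z
        rw [eq_comm, QuotientGroup.eq]
        have := hK.conj_mem _ hg z⁻¹
        convert this using 1
        group
      rw [h2]
      exact h0 k g hg _) hx (QuotientGroup.mk 1)
  have hxK : x ∈ K := hx.1
  have h2 : x • (QuotientGroup.mk 1 : Γ ⧸ K) = QuotientGroup.mk 1 := by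
    show (QuotientGroup.mk (x * 1) : Γ ⧸ K) = QuotientGroup.mk 1
    rw [mul_one, eq_comm, QuotientGroup.eq, inv_one, one_mul]
    exact hxK
  have h3 : Quotient.out (QuotientGroup.mk 1 : Γ ⧸ K) ∈ K := by
    have h4 : (QuotientGroup.mk (Quotient.out (QuotientGroup.mk 1 : Γ ⧸ K)) : Γ ⧸ K) =
      QuotientGroup.mk 1 := QuotientGroup.out_eq' _
    have h5 := QuotientGroup.eq.mp h4.symm
    rwa [inv_one, one_mul] at h5
  change θ ((Quotient.out (x • (QuotientGroup.mk 1 : Γ ⧸ K)))⁻¹ * x *
    Quotient.out (QuotientGroup.mk 1 : Γ ⧸ K)) = 0 at h1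
  rw [h2, hθ _ (K.mul_mem (K.inv_mem h3) hxK) _ h3, hθ _ (K.inv_mem h3) _ hxK] at h1
  have h4 : θ 1 = 0 := by
    have := hθ 1 K.one_mem 1 K.one_mem
    rw [mul_one] at this
    exact left_eq_add.mp this
  have h5 := hθ _ (K.inv_mem h3) _ h3
  rw [inv_mul_cancel, h4] at h5
  linear_combination h1 + h5

end Pool.Agent.J4.H7.RF
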