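import Pool.Agent.J4.H7.RF.Next
import Pool.Agent.K4H11.RFRS.Main

/-! Amalgams of virtually RFRS groups over cyclic groups. -/

set_option linter.unusedSectionVars false
set_option linter.dupNamespace false
set_option autoImplicit false

namespace Pool.Agent.J4.H7.RF

open Pool.Agent.R632.VRC Pool.Agent.K4H11.RFRS

universe u v

variable {G : Bool → Type u} [∀ i, Group (G i)] {H : Type u} [Group H] {φ : ∀ i, H →* G i}
  {Γ : Type u} [Group Γ] {o : ∀ i, G i →* Γ}

/-- a normal subgroup of finite index with given intersections with the factors -/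
theorem start (hΓ : Amalg φ o) (A : ∀ i, Subgroup (G i)) (hA : ∀ i, (A i).Normal)
    (hAf : ∀ i, (A i).FiniteIndex) (H0 : Subgroup H) (hH0 : ∀ i h, φ i h ∈ A i ↔ h ∈ H0) :
    ∃ K : Subgroup Γ, K.Normal ∧ K.FiniteIndex ∧ ∀ k g, o k g ∈ K ↔ g ∈ A k := by
  classical
  have hH0f : H0.FiniteIndex := by
    have h1 : ((A true).comap (φ true)).FiniteIndex := by
      constructor
      rw [Subgroup.index_comap]
      intro h0
      have := hA true
      have h4 := Subgroup.relIndex_dvd_index_of_normal (A true) (φ true).range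
      rw [h0] at h4
      exact (hAf true).index_ne_zero (Nat.eq_zero_of_zero_dvd h4)
    exact Subgroup.finiteIndex_of_le (H := (A true).comap (φ true)) fun h hh => (hH0 true h).mp hh
  have hfinDC : ∀ i, Finite (DC (φ i) (A i)) := fun i => finite_DC _ _ (hAf i)
  have hfinH : Finite (H ⧸ H0) := Subgroup.finite_quotient_of_finiteIndex
  choose rep hrep using fun i => cls_surj (φ i) (A i)
  let J : Type u := DC (φ true) (A true) × DC (φ false) (A false)
  let R : Bool → Type u := bs (DC (φ false) (A false)) (DC (φ true) (A true))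
  let t : ∀ i, J → G i := bs (T := fun i => J → G i) (fun π => rep true π.1) (fun π => rep false π.2)
  let lam : ∀ i, J → DC (φ i) (A i) × R i := bs (T := fun i => J → DC (φ i) (A i) × R i)
    (fun π => (π.1, π.2)) (fun π => (π.2, π.1))
  have hlam : ∀ i, Function.Bijective (lam i) := by
    rintro (_ | _)
    · constructor
      · rintro ⟨a, b⟩ ⟨a', b'⟩ h
        have h1 : b = b' := congrArg Prod.fst h
        have h2 : a = a' := congrArg Prod.snd h
        rw [h1, h2]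
      · rintro ⟨a, b⟩
        exact ⟨(b, a), rfl⟩
    · constructor
      · rintro ⟨a, b⟩ ⟨a', b'⟩ h
        have h1 : a = a' := congrArg Prod.fst h
        have h2 : b = b' := congrArg Prod.snd h
        rw [h1, h2]
      · rintro ⟨a, b⟩
        exact ⟨(a, b), rfl⟩
  have ht : ∀ i π, cls (φ i) (A i) (t i π) = (lam i π).1 := by
    rintro (_ | _) π
    · exact hrep false π.2
    · exact hrep true π.1
  obtain ⟨ρ, hρ⟩ := glue hΓ A hA H0 hH0 t lam hlam ht (fun _ _ _ => 0) (fun _ _ => HomOn.zero)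
    (fun _ _ => 0) (fun _ _ _ _ => rfl) (fun _ _ => 0)
  have hfin : Finite (Equiv.Perm ((H ⧸ H0) × J)) := inferInstance
  refine ⟨(Wr.perm.comp ρ).ker, inferInstance, inferInstance, fun k g => ?_⟩
  have hbij := bij_EE (φ k) (A k) H0 (hH0 k) (t k) (lam k) (hlam k) (ht k)
  constructor
  · intro hg
    have hg' : (ρ (o k g)).s = 1 := hg
    let ω : (H ⧸ H0) × J := (QuotientGroup.mk 1, (cls (φ true) (A true) 1, cls (φ false) (A false) 1))
    have h1 := nxt_spec (φ k) (A k) H0 (t k) (fun π => (lam k π).2) hbij g ω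
    have h2 := (hρ k g ω (nxt (φ k) (A k) H0 (t k) (fun π => (lam k π).2) hbij g ω) h1.1 h1.2).1
    rw [hg'] at h2
    have h3 : ω = nxt (φ k) (A k) H0 (t k) (fun π => (lam k π).2) hbij g ω := h2
    have h4 := h1.2
    rw [← h3] at h4
    have h5 := (hA k).conj_mem _ h4 (sg (φ k) H0 (t k) ω)
    convert h5 using 1
    group
  · intro hg
    show (ρ (o k g)).s = 1
    apply Equiv.ext
    intro ω
    refine (hρ k g ω ω rfl ?_).1
    have h5 := (hA k).conj_mem _ hg (sg (φ k) H0 (t k) ω)⁻¹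
    convert h5 using 1
    group

/-- The tower. -/
theorem tower (hΓ : Amalg φ o) (hfg : Group.FG Γ) (hcomm : ∀ a b : H, a * b = b * a)
    (A0 : ∀ k, Subgroup (G k)) (hA0 : ∀ k, (A0 k).Normal) {L0 : Subgroup Γ}
    {x0 T0 : ∀ k, Γ → G k ⧸ A0 k} {Θ0 : Γ → Γ → ∀ k, G k ⧸ A0 k} (lv0 : Lev φ o A0 L0 x0 T0 Θ0)
    (c0 : H) (hc0 : ∀ k h, φ k h ∈ A0 k ↔ ∃ n : ℤ, h = c0 ^ n)
    (hf0 : c0 = 1 ∨ ∃ f : ∀ k, G k → ℤ, ∀ k, HomOn (A0 k) (f k) ∧ f k (φ k c0) = 1) (j : ℕ) :
    ∃ _ : ∀ k, (tw (A0 k) j).Normal, ∃ (L : Subgroup Γ) (x T : ∀ k, Γ → G k ⧸ tw (A0 k) j)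
      (Θ : Γ → Γ → ∀ k, G k ⧸ tw (A0 k) j), Lev φ o (fun k => tw (A0 k) j) L x T Θ ∧
      (∃ i, tw L0 i ≤ L) ∧ ∃ c : H, (∀ k h, φ k h ∈ tw (A0 k) j ↔ ∃ n : ℤ, h = c ^ n) ∧
      (c = 1 ∨ ∃ f : ∀ k, G k → ℤ, ∀ k, HomOn (tw (A0 k) j) (f k) ∧ f k (φ k c) = 1) := by
  induction j with
  | zero => exact ⟨hA0, L0, x0, T0, Θ0, lv0, ⟨0, le_rfl⟩, c0, hc0, hf0⟩
  | succ j ih =>
    obtain ⟨hN, L, x, T, Θ, lv, ⟨i, hi⟩, c, hc, hf⟩ := ih
    have hN' : ∀ k, (tw (A0 k) (j + 1)).Normal := fun k => by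
      have := hA0 k
      exact tw_normal _ _
    obtain ⟨L', x', T', Θ', lv', hL'⟩ := next hΓ hfg lv c hc hcomm hf (ex j) (ex_ne_zero j)
      (A' := fun k => tw (A0 k) (j + 1)) (hA' := hN') (fun k => rfl)
    refine ⟨hN', L', x', T', Θ', lv', ⟨max i j + 2, ?_⟩, c ^ ex j, ?_, ?_⟩
    · refine le_trans ?_ hL'
      have h1 : tw L0 (max i j) ≤ L := (tw_anti L0 (le_max_left i j)).trans hi
      have h2 : ex j ∣ ex (max i j) := Nat.factorial_dvd_factorial (by omega)
      have h3 : ex j ∣ ex (max i j + 1) := Nat.factorial_dvd_factorial (by omega)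
      have h4 : tw L0 (max i j + 1) ≤ step (ex j) L :=
        (step_dvd h2 _).trans (step_mono _ h1)
      exact (step_dvd h3 _).trans (step_mono _ h4)
    · intro k h
      show φ k h ∈ step (ex j) (tw (A0 k) j) ↔ _
      constructor
      · intro hh
        obtain ⟨n, rfl⟩ := (hc k h).mp hh.1
        rcases hf with rfl | ⟨f, hf⟩
        · exact ⟨0, by rw [one_zpow, zpow_zero]⟩
        · have h1 := hh.2 (f k) (hf k).1
          rw [map_zpow, (hf k).1.zpow ((hc k c).mpr ⟨1, (zpow_one c).symm⟩), (hf k).2, mul_one] at h1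
          obtain ⟨q, rfl⟩ := h1
          exact ⟨q, by rw [zpow_mul, zpow_natCast]⟩
      · rintro ⟨n, rfl⟩
        have h1 : φ k c ∈ tw (A0 k) j := (hc k c).mpr ⟨1, (zpow_one c).symm⟩
        have h2 : φ k ((c ^ ex j) ^ n) = φ k c ^ ((ex j : ℤ) * n) := by
          rw [map_zpow, map_pow, zpow_mul, zpow_natCast]
        rw [h2]
        refine ⟨(tw (A0 k) j).zpow_mem h1 _, fun f' hf' => ?_⟩
        rw [hf'.zpow h1]
        exact ⟨n * f' (φ k c), by ring⟩
    · rcases hf with rfl | ⟨f, hf⟩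
      · left
        rw [one_pow]
      · right
        refine ⟨fun k y => f k y / (ex j : ℕ), fun k => ⟨?_, ?_⟩⟩
        · exact HomOn_div ((hf k).1.mono (step_le _ _)) fun y hy => hy.2 (f k) (hf k).1
        · show f k (φ k (c ^ ex j)) / (ex j : ℕ) = 1
          have h1 : φ k (c ^ ex j) = φ k c ^ (ex j : ℤ) := by
            rw [map_pow, zpow_natCast]
          rw [h1, (hf k).1.zpow ((hc k c).mpr ⟨1, (zpow_one c).symm⟩), (hf k).2, mul_one]
          exact Int.ediv_self (by exact_mod_cast ex_ne_zero j)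

/-- The amalgam of two groups with compatible towers. -/
theorem main (hΓ : Amalg φ o) (hfg : Group.FG Γ) (hcomm : ∀ a b : H, a * b = b * a)
    (A : ∀ k, Subgroup (G k)) (hA : ∀ k, (A k).Normal) (hAf : ∀ k, (A k).FiniteIndex)
    (hAT : ∀ k, Pool.Agent.K4H11.RFRS.TT (A k)) (c0 : H) (hc0 : ∀ k h, φ k h ∈ A k ↔ ∃ n : ℤ, h = c0 ^ n)
    (hf0 : c0 = 1 ∨ ∃ f : ∀ k, G k → ℤ, ∀ k, HomOn (A k) (f k) ∧ f k (φ k c0) = 1) :
    ∃ M : Subgroup Γ, M.FiniteIndex ∧ Pool.Agent.K4H11.RFRS.TT M := by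
  obtain ⟨K, hKn, hKf, hKm⟩ := start hΓ A hA hAf (Subgroup.zpowers c0) (fun k h => by
    rw [hc0]
    constructor
    · rintro ⟨n, hn⟩
      exact ⟨n, hn.symm⟩
    · rintro ⟨n, hn⟩
      exact ⟨n, hn.symm⟩)
  obtain ⟨L, x, T, Θ, lv⟩ := first hΓ hAf hKn hKf hKm
  have hE : ∀ j, ∃ i, ∀ k (g : G k), o k g ∈ tw L i → g ∈ tw (A k) j := by
    intro j
    obtain ⟨_, L', x', T', Θ', lv', ⟨i, hi⟩, -⟩ := tower hΓ hfg hcomm A hA lv c0 hc0 hf0 j
    exact ⟨i, fun k g hg => (lv'.mem k g).mp (hi hg)⟩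
  have hLn := lv.normal
  refine ⟨L, lv.fin, ?_⟩
  refine walk hΓ (fun i => tw L i) (fun i => tw_normal L i) (fun i => tw_succ_le L i)
    (fun i f hf x hx => ⟨ex i, two_le_ex i, dvd_of_mem hx hf⟩) ?_ ?_
  · intro k g hg
    have h1 : g = 1 := hAT k g fun j => by
      obtain ⟨i, hi⟩ := hE j
      exact hi k g (hg i)
    rw [h1, map_one]
  · intro k g hg
    have hg' : ∀ j, ∃ h : H, (φ k h)⁻¹ * g ∈ tw (A k) j := by
      intro j
      obtain ⟨i, hi⟩ := hE j
      obtain ⟨h, hh⟩ := hg i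
      refine ⟨h, hi k _ ?_⟩
      rw [map_mul, map_inv]
      exact hh
    obtain ⟨h0, hu0⟩ := hg' 0
    have hu0' : (φ k h0)⁻¹ * g ∈ A k := hu0
    let u0 : G k := (φ k h0)⁻¹ * g
    have hc0A : φ k c0 ∈ A k := (hc0 k c0).mpr ⟨1, (zpow_one c0).symm⟩
    have hq : ∀ j, ∃ q : ℤ, φ k c0 ^ q * u0 ∈ tw (A k) j := by
      intro j
      obtain ⟨h, hh⟩ := hg' j
      have h2 : φ k (h⁻¹ * h0) ∈ A k := by
        have h3 := (A k).mul_mem (tw_le _ j hh) ((A k).inv_mem hu0')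
        convert h3 using 1
        rw [map_mul, map_inv]
        group
      obtain ⟨q, hq⟩ := (hc0 k _).mp h2
      refine ⟨q, ?_⟩
      have h4 : (φ k h)⁻¹ * g = φ k c0 ^ q * u0 := by
        rw [← map_zpow, ← hq, map_mul, map_inv]
        show _ = (φ k h)⁻¹ * φ k h0 * ((φ k h0)⁻¹ * g)
        group
      rwa [h4] at hh
    rcases hf0 with rfl | ⟨f, hf⟩
    · have h8 : u0 = 1 := hAT k _ fun j => by
        obtain ⟨q, hq⟩ := hq j
        rwa [map_one, one_zpow, one_mul] at hq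
      refine ⟨h0, ?_⟩
      have h9 : (φ k h0)⁻¹ * g = 1 := h8
      exact inv_mul_eq_one.mp h9
    · have key : ∀ j, (φ k c0 ^ f k u0)⁻¹ * u0 ∈ tw (A k) j := by
        intro j
        obtain ⟨q, h1⟩ := hq j
        have hρ : MulOn (A k) (fun x : G k => φ k c0 ^ f k x) := by
          intro x hx y hy
          show φ k c0 ^ f k (x * y) = φ k c0 ^ f k x * φ k c0 ^ f k y
          rw [(hf k).1 x hx y hy, zpow_add]
        have h5 := tw_map (L := A k) hρ (fun x _ => (A k).zpow_mem hc0A _) j _ h1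
        have h6 : f k (φ k c0 ^ q * u0) = q + f k u0 := by
          rw [(hf k).1 _ ((A k).zpow_mem hc0A _) _ hu0', (hf k).1.zpow hc0A, (hf k).2, mul_one]
        have h7 := (tw (A k) j).mul_mem ((tw (A k) j).inv_mem h5) h1
        convert h7 using 1
        show _ = (φ k c0 ^ f k (φ k c0 ^ q * u0))⁻¹ * (φ k c0 ^ q * u0)
        rw [h6, zpow_add]
        group
      have h8 := hAT k _ key
      rw [inv_mul_eq_one] at h8
      refine ⟨h0 * c0 ^ f k u0, ?_⟩
      rw [map_mul, map_zpow, h8]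
      show φ k h0 * ((φ k h0)⁻¹ * g) = g
      group

end Pool.Agent.J4.H7.RF
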