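import Pool.Agent.J4.H7.RF.Lift

/-! Coverings of the quotients of the Bass-Serre tree to which all homomorphisms extend. -/

set_option linter.unusedSectionVars false
set_option linter.dupNamespace false
set_option autoImplicit false

namespace Pool.Agent.J4.H7.RF

open Pool.Agent.R632.VRC Pool.Agent.K4H11.RFRS

universe u v

variable {G : Bool → Type u} [∀ i, Group (G i)] {H : Type u} [Group H] {φ : ∀ i, H →* G i}
  {Γ : Type u} [Group Γ] {o : ∀ i, G i →* Γ}

variable (φ o) in
/-- positions `x` and transitions `T` -/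
structure Dat (K : Subgroup Γ) (A : ∀ k, Subgroup (G k)) (x T : ∀ k, Γ → G k ⧸ A k) : Prop where
  hx : ∀ k g z κ, κ ∈ K → x k (o k g * z * κ) = g • x k z
  hT : ∀ k h z κ, κ ∈ K → T k (o k (φ k h) * z * κ) = T k z
  hTx : ∀ k z, ∃ h, T k z = φ k h • x k z

lemma exists_lift {K K' : Subgroup Γ} (hKK : K' ≤ K) (hK' : K'.Normal) {A A' : ∀ k, Subgroup (G k)}
    (hA : ∀ k, A' k ≤ A k) (hA' : ∀ k, (A' k).Normal) (hmem : ∀ k g, o k g ∈ K' → g ∈ A' k)
    {x T : ∀ k, Γ → G k ⧸ A k} (h : Dat φ o K A x T) :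
    ∃ x' T' : ∀ k, Γ → G k ⧸ A' k, Dat φ o K' A' x' T' ∧ (∀ k z, pr (hA k) (x' k z) = x k z) ∧
      ∀ k z, pr (hA k) (T' k z) = T k z := by
  have h1 := fun k => lift_x (o k) hKK hK' (hA k) (hA' k) (hmem k) (x k) (h.hx k)
  choose x' hx' hxx using h1
  have h2 := fun k => lift_T (o k) (φ k) hKK (hA k) (x k) (T k) (h.hT k) (h.hTx k) (x' k) (hx' k)
    (hxx k)
  choose T' hT' hTx' hTT using h2
  exact ⟨x', T', ⟨hx', hT', hTx'⟩, hxx, hTT⟩

/-- the changes of coordinates -/
def Cf {A : ∀ k, Subgroup (G k)} [∀ k, (A k).Normal] (T : ∀ k, Γ → G k ⧸ A k) (b : Bool) (z : Γ) :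
    ∀ k, G k ⧸ A k := fun k => if b = true then 1 else if k = true then T k z else (T k z)⁻¹

section

variable {A : ∀ k, Subgroup (G k)} [hA : ∀ k, (A k).Normal] {K : Subgroup Γ}
  {x T : ∀ k, Γ → G k ⧸ A k}

lemma Dat.T_right (h : Dat φ o K A x T) (k : Bool) (z : Γ) {κ : Γ} (hκ : κ ∈ K) :
    T k (z * κ) = T k z := by
  have := h.hT k 1 z κ hκ
  rwa [map_one, map_one, one_mul] at this

lemma Dat.x_right (h : Dat φ o K A x T) (k : Bool) (z : Γ) {κ : Γ} (hκ : κ ∈ K) :
    x k (z * κ) = x k z := by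
  have := h.hx k 1 z κ hκ
  rwa [map_one, one_mul, one_smul] at this

lemma Dat.x_left (h : Dat φ o K A x T) (k : Bool) (g : G k) (z : Γ) :
    x k (o k g * z) = g • x k z := by
  have := h.hx k g z 1 K.one_mem
  rwa [mul_one] at this

lemma Dat.C_right (h : Dat φ o K A x T) (b : Bool) (z : Γ) {κ : Γ} (hκ : κ ∈ K) :
    Cf T b (z * κ) = Cf T b z := by
  funext k
  show (if b = true then 1 else if k = true then T k (z * κ) else (T k (z * κ))⁻¹) =
    (if b = true then 1 else if k = true then T k z else (T k z)⁻¹)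
  rw [h.T_right k z hκ]

lemma Dat.C_left (hΓ : Amalg φ o) (h : Dat φ o K A x T) (b b' : Bool) (y : H) (z : Γ) :
    Cf T b (o b' (φ b' y) * z) = Cf T b z := by
  funext k
  have h1 : T k (o b' (φ b' y) * z) = T k z := by
    have := h.hT k y z 1 K.one_mem
    rw [mul_one] at this
    rwa [hΓ.comp b' k]
  show (if b = true then 1 else if k = true then T k (o b' (φ b' y) * z) else
      (T k (o b' (φ b' y) * z))⁻¹) =
    (if b = true then 1 else if k = true then T k z else (T k z)⁻¹)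
  rw [h1]

/-- the cocycle of a covering -/
lemma exists_Th (hΓ : Amalg φ o) (h : Dat φ o K A x T) :
    ∃ Θ : Γ → Γ → ∀ k, G k ⧸ A k, (∀ y z w, Θ (y * z) w = Θ y (z * w) * Θ z w) ∧
      ∀ k g w, Θ (o k g) w = (Cf T k (o k g * w))⁻¹ * Cf T k w := by
  obtain ⟨Φ, hΦ, hΦo⟩ := coc_grp hΓ (X := Γ) (B := ∀ k, G k ⧸ A k)
    (fun k g w => (Cf T k (o k g * w))⁻¹ * Cf T k w) (by
      intro k g g' w
      show (Cf T k (o k (g * g') * w))⁻¹ * Cf T k w = ((Cf T k (o k g * (o k g' * w)))⁻¹ *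
        Cf T k (o k g' * w)) * ((Cf T k (o k g' * w))⁻¹ * Cf T k w)
      rw [map_mul, mul_assoc (o k g)]
      group) (by
      intro k k' y w
      show (Cf T k (o k (φ k y) * w))⁻¹ * Cf T k w = (Cf T k' (o k' (φ k' y) * w))⁻¹ * Cf T k' w
      rw [h.C_left hΓ, h.C_left hΓ, inv_mul_cancel, inv_mul_cancel])
  exact ⟨Φ, hΦ, hΦo⟩

end

variable (φ o) in
/-- a covering `L` with monodromy `Θ` -/
structure Lev (A : ∀ k, Subgroup (G k)) [hA : ∀ k, (A k).Normal] (L : Subgroup Γ)
    (x T : ∀ k, Γ → G k ⧸ A k) (Θ : Γ → Γ → ∀ k, G k ⧸ A k) : Prop where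
  normal : L.Normal
  fin : L.FiniteIndex
  mem : ∀ k g, o k g ∈ L ↔ g ∈ A k
  dat : Dat φ o L A x T
  coc : ∀ y z w, Θ (y * z) w = Θ y (z * w) * Θ z w
  coc_o : ∀ k g w, Θ (o k g) w = (Cf T k (o k g * w))⁻¹ * Cf T k w
  one : ∀ y ∈ L, ∀ w, Θ y w = 1

section

variable {A : ∀ k, Subgroup (G k)} [hA : ∀ k, (A k).Normal] {K : Subgroup Γ}
  {x T : ∀ k, Γ → G k ⧸ A k} {Θ : Γ → Γ → ∀ k, G k ⧸ A k}

lemma Th_one (hc : ∀ y z w, Θ (y * z) w = Θ y (z * w) * Θ z w) (w : Γ) : Θ 1 w = 1 := by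
  have := hc 1 1 w
  rw [mul_one, one_mul] at this
  exact left_eq_mul.mp this

lemma Th_right (hΓ : Amalg φ o) (h : Dat φ o K A x T)
    (hc : ∀ y z w, Θ (y * z) w = Θ y (z * w) * Θ z w)
    (ho : ∀ k g w, Θ (o k g) w = (Cf T k (o k g * w))⁻¹ * Cf T k w) {κ : Γ} (hκ : κ ∈ K) :
    ∀ y w, Θ y (w * κ) = Θ y w := by
  refine gen_ind hΓ (fun w => ?_) (fun k g y ih w => ?_)
  · rw [Th_one hc, Th_one hc]
  · rw [hc, hc, ih, ho, ho, ← mul_assoc y, ← mul_assoc (o k g), h.C_right _ _ hκ, h.C_right _ _ hκ]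

/-- elliptic elements of `K` -/
lemma Th_ell (h : Dat φ o K A x T) (hK : K.Normal)
    (ho : ∀ k g w, Θ (o k g) w = (Cf T k (o k g * w))⁻¹ * Cf T k w) {k : Bool} {g : G k}
    (hg : o k g ∈ K) (w : Γ) : Θ (o k g) w = 1 := by
  have h1 : o k g * w = w * (w⁻¹ * o k g * w) := by group
  have h2 : w⁻¹ * o k g * w ∈ K := by
    have := hK.conj_mem _ hg w⁻¹
    rwa [inv_inv] at this
  rw [ho, h1, h.C_right _ _ h2, inv_mul_cancel]

/-- the kernel of the monodromy -/
lemma exists_ker (hΓ : Amalg φ o) (h : Dat φ o K A x T) (hK : K.Normal)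
    (hc : ∀ y z w, Θ (y * z) w = Θ y (z * w) * Θ z w)
    (ho : ∀ k g w, Θ (o k g) w = (Cf T k (o k g * w))⁻¹ * Cf T k w) :
    ∃ L : Subgroup Γ, L.Normal ∧ ∀ y, y ∈ L ↔ y ∈ K ∧ ∀ w, Θ y w = 1 := by
  have hinv : ∀ y w, Θ y⁻¹ w = (Θ y (y⁻¹ * w))⁻¹ := by
    intro y w
    have := hc y y⁻¹ w
    rw [mul_inv_cancel, Th_one hc] at this
    exact eq_inv_of_mul_eq_one_right this.symm
  refine ⟨{ carrier := {y | y ∈ K ∧ ∀ w, Θ y w = 1}
            mul_mem' := fun {a b} ha hb => ⟨K.mul_mem ha.1 hb.1, fun w => by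
              rw [hc, ha.2, hb.2, one_mul]⟩
            one_mem' := ⟨K.one_mem, fun w => Th_one hc w⟩
            inv_mem' := fun {a} ha => ⟨K.inv_mem ha.1, fun w => by
              rw [hinv, ha.2, inv_one]⟩ }, ⟨?_⟩, fun y => Iff.rfl⟩
  rintro y ⟨hy, hy1⟩ z
  refine ⟨hK.conj_mem _ hy z, fun w => ?_⟩
  rw [hc, hc, hy1, mul_one]
  have h1 : y * (z⁻¹ * w) = z⁻¹ * w * ((z⁻¹ * w)⁻¹ * y * (z⁻¹ * w)) := by group
  have h2 : (z⁻¹ * w)⁻¹ * y * (z⁻¹ * w) ∈ K := by
    have := hK.conj_mem _ hy (z⁻¹ * w)⁻¹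
    rwa [inv_inv] at this
  rw [h1, Th_right hΓ h hc ho h2, ← hc, mul_inv_cancel, Th_one hc]

end

/-- points of the covering -/
structure Om (L : Subgroup Γ) (A : ∀ k, Subgroup (G k)) : Type u where
  /-- the coset -/
  q : Γ ⧸ L
  /-- the state -/
  s : ∀ k, G k ⧸ A k

section ext

variable {A : ∀ k, Subgroup (G k)} [hA : ∀ k, (A k).Normal] {L : Subgroup Γ}
  {x T : ∀ k, Γ → G k ⧸ A k} {Θ : Γ → Γ → ∀ k, G k ⧸ A k}

/-- The extension of the homomorphisms, with weights. -/
theorem Lev.ext_weights (hΓ : Amalg φ o) (lv : Lev φ o A L x T Θ) (c0 : H)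
    (hc0 : ∀ k h, φ k h ∈ A k ↔ ∃ n : ℤ, h = c0 ^ n) (hcomm : ∀ a b : H, a * b = b * a)
    (g : ∀ k, G k → ℤ) (hg : ∀ k, HomOn (A k) (g k)) (v : ∀ k, G (!k) ⧸ A (!k) → ℤ)
    (hv : ∀ (a : G true ⧸ A true) (b : G false ⧸ A false),
      v true b * cocy (g true) (φ true c0) a = v false a * cocy (g false) (φ false c0) b)
    (k0 : Bool) : ∃ F : Γ → ℤ, HomOn L F ∧ ∀ a ∈ A k0, F (o k0 a) = v k0 1 * g k0 a := by
  classical
  have hd := lv.dat
  have hLn := lv.normal
  have hout : ∀ (y : Γ) (q : Γ ⧸ L), ∃ κ ∈ L, Quotient.out (y • q) = y * Quotient.out q * κ := by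
    intro y q
    refine ⟨(y * Quotient.out q)⁻¹ * Quotient.out (y • q), ?_, by group⟩
    rw [← QuotientGroup.eq, QuotientGroup.out_eq']
    conv_rhs => rw [← QuotientGroup.out_eq' q]
    rfl
  have hfixq : ∀ (y : Γ) (q : Γ ⧸ L), y • q = q ↔ y ∈ L := by
    intro y q
    obtain ⟨z, rfl⟩ := QuotientGroup.mk_surjective q
    show (QuotientGroup.mk (y * z) : Γ ⧸ L) = QuotientGroup.mk z ↔ _
    rw [eq_comm, QuotientGroup.eq]
    constructor
    · intro h
      have := hLn.conj_mem _ h z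
      convert this using 1
      group
    · intro h
      have := hLn.conj_mem _ h z⁻¹
      convert this using 1
      group
  have hTr : ∀ (y w κ : Γ), κ ∈ L → Θ y (w * κ) = Θ y w := fun y w κ hκ =>
    Th_right hΓ hd lv.coc lv.coc_o hκ y w
  -- the action
  let act : MulAction Γ (Om (G := G) L A) :=
    { smul := fun y ω => ⟨y • ω.q, Θ y (Quotient.out ω.q) * ω.s⟩
      one_smul := by
        rintro ⟨q, s⟩
        show (⟨(1 : Γ) • q, Θ 1 (Quotient.out q) * s⟩ : Om (G := G) L A) = ⟨q, s⟩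
        rw [one_smul, Th_one lv.coc, one_mul]
      mul_smul := by
        rintro y z ⟨q, s⟩
        show (⟨(y * z) • q, Θ (y * z) (Quotient.out q) * s⟩ : Om (G := G) L A) =
          ⟨y • z • q, Θ y (Quotient.out (z • q)) * (Θ z (Quotient.out q) * s)⟩
        obtain ⟨κ, hκ, hκ'⟩ := hout z q
        rw [mul_smul, lv.coc, hκ', hTr _ _ _ hκ, mul_assoc] }
  have hsm : ∀ (y : Γ) (ω : Om (G := G) L A),
      y • ω = ⟨y • ω.q, Θ y (Quotient.out ω.q) * ω.s⟩ := fun _ _ => rfl
  have hfix : ∀ y ∈ L, ∀ ω : Om (G := G) L A, y • ω = ω := by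
    rintro y hy ⟨q, s⟩
    rw [hsm]
    show (⟨y • q, Θ y (Quotient.out q) * s⟩ : Om (G := G) L A) = ⟨q, s⟩
    rw [(hfixq y q).mpr hy, lv.one y hy, one_mul]
  -- the local coordinates
  let sk : ∀ (_ : Bool) (_ : Om (G := G) L A) (j : Bool), G j ⧸ A j :=
    fun k ω => Cf T k (Quotient.out ω.q) * ω.s
  have hsk : ∀ k (p : G k) ω, sk k (o k p • ω) = sk k ω := by
    rintro k p ⟨q, s⟩
    show Cf T k (Quotient.out (o k p • q)) * (Θ (o k p) (Quotient.out q) * s) =
      Cf T k (Quotient.out q) * s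
    obtain ⟨κ, hκ, hκ'⟩ := hout (o k p) q
    rw [hκ', hd.C_right _ _ hκ, lv.coc_o]
    group
  let pos : ∀ (k : Bool) (_ : Om (G := G) L A), G k ⧸ A k := fun k ω =>
    x k (Quotient.out ω.q) * sk k ω k
  have hpos : ∀ k (p : G k) ω, pos k (o k p • ω) = p • pos k ω := by
    intro k p ω
    show x k (Quotient.out (o k p • ω.q)) * sk k (o k p • ω) k =
      p • (x k (Quotient.out ω.q) * sk k ω k)
    obtain ⟨κ, hκ, hκ'⟩ := hout (o k p) ω.q
    rw [hsk, hκ', hd.x_right _ _ hκ, hd.x_left, smul_mul']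
  let c : ∀ k, G k → Om (G := G) L A → ℤ := fun k p ω =>
    v k (sk k ω (!k)) * cocy (g k) p (pos k ω)
  have hcl : ∀ k p p' ω, c k (p * p') ω = c k p (o k p' • ω) + c k p' ω := by
    intro k p p' ω
    show v k (sk k ω (!k)) * cocy (g k) (p * p') (pos k ω) =
      v k (sk k (o k p' • ω) (!k)) * cocy (g k) p (pos k (o k p' • ω)) +
      v k (sk k ω (!k)) * cocy (g k) p' (pos k ω)
    rw [hsk, hpos, cocy_mul (hg k)]
    ring
  have hc0A : ∀ k, φ k c0 ∈ A k := fun k => (hc0 k c0).mpr ⟨1, (zpow_one c0).symm⟩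
  have hUinv : ∀ k h (p : G k ⧸ A k), cocy (g k) (φ k c0) (φ k h • p) =
      cocy (g k) (φ k c0) p := fun k h p =>
    cocy_inv (hg k) (hc0A k) (by rw [← map_mul, ← map_mul, hcomm]) p
  -- the matching
  have hmatch : ∀ ω, c true (φ true c0) ω = c false (φ false c0) ω := by
    rintro ⟨q, s⟩
    let w : Γ := Quotient.out q
    have h1 : sk true ⟨q, s⟩ = s := by
      funext k
      show (if true = true then (1 : G k ⧸ A k) else _) * s k = s k
      rw [if_pos rfl, one_mul]
    have h2 : sk false ⟨q, s⟩ true = T true w * s true := rfl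
    have h3 : sk false ⟨q, s⟩ false = (T false w)⁻¹ * s false := rfl
    have h4 : c true (φ true c0) ⟨q, s⟩ =
        v true (s false) * cocy (g true) (φ true c0) (T true w * s true) := by
      show v true (sk true ⟨q, s⟩ false) * cocy (g true) (φ true c0)
        (x true w * sk true ⟨q, s⟩ true) = _
      rw [h1]
      obtain ⟨h, hh⟩ := hd.hTx true w
      rw [hh, smul_mul', hUinv]
    have h5 : c false (φ false c0) ⟨q, s⟩ =
        v false (T true w * s true) * cocy (g false) (φ false c0) (s false) := by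
      show v false (sk false ⟨q, s⟩ true) * cocy (g false) (φ false c0)
        (x false w * sk false ⟨q, s⟩ false) = _
      rw [h2, h3]
      obtain ⟨h, hh⟩ := hd.hTx false w
      congr 1
      rw [← hUinv false h, ← smul_mul', ← hh, mul_inv_cancel_left]
    rw [h4, h5, hv]
  obtain ⟨d, hd'⟩ := trivialize ((o true).comp (φ true))
    (fun h ω => c true (φ true h) ω - c false (φ false h) ω) (by
      intro h h' ω
      show c true (φ true (h * h')) ω - c false (φ false (h * h')) ω =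
        (c true (φ true h) (o true (φ true h') • ω) - c false (φ false h)
          (o true (φ true h') • ω)) + (c true (φ true h') ω - c false (φ false h') ω)
      rw [map_mul, map_mul, hcl, hcl, hΓ.comp false true]
      ring) (by
      intro h ω hh
      have h1 : o true (φ true h) • ω = ω := hh
      have h2 : o true (φ true h) ∈ L := by
        rw [← hfixq _ ω.q]
        exact congrArg Om.q h1
      obtain ⟨n, rfl⟩ := (hc0 true h).mp ((lv.mem true _).mp h2)
      have h3 : ∀ k ω, o k (φ k c0) • ω = ω := fun k ω =>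
        hfix _ ((lv.mem k _).mpr (hc0A k)) ω
      have h4 : ∀ k (n : ℤ), c k (φ k (c0 ^ n)) ω = n * c k (φ k c0) ω := by
        intro k n
        induction n using Int.induction_on with
        | zero =>
          rw [zpow_zero, map_one]
          show v k (sk k ω (!k)) * cocy (g k) 1 (pos k ω) = _
          rw [cocy_one (hg k)]
          ring
        | succ m ih =>
          rw [zpow_add_one, map_mul, hcl, h3, ih]
          ring
        | pred m ih =>
          have h5 := hcl k (φ k (c0 ^ (-(m : ℤ) - 1))) (φ k c0) ω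
          rw [← map_mul, ← zpow_add_one, sub_add_cancel, h3, ih] at h5
          linarith
      show c true (φ true (c0 ^ n)) ω - c false (φ false (c0 ^ n)) ω = 0
      rw [h4, h4, hmatch, sub_self])
  obtain ⟨Φ, hΦ, hΦo⟩ := coc_int hΓ (X := Om (G := G) L A)
    (fun k p ω => c k p ω + if k = true then 0 else d (o k p • ω) - d ω) (by
      intro k p p' ω
      show c k (p * p') ω + (if k = true then 0 else d (o k (p * p') • ω) - d ω) =
        (c k p (o k p' • ω) + (if k = true then 0 else d (o k p • (o k p' • ω)) - d (o k p' • ω))) +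
        (c k p' ω + (if k = true then 0 else d (o k p' • ω) - d ω))
      rw [hcl, map_mul, mul_smul]
      split_ifs
      · ring
      · ring) (by
      have h1 : ∀ k h ω, (c k (φ k h) ω + if k = true then 0 else d (o k (φ k h) • ω) - d ω) =
          c true (φ true h) ω := by
        rintro (_ | _) h ω
        · rw [if_neg (by simp), hΓ.comp false true]
          have := hd' h ω
          change c true (φ true h) ω - c false (φ false h) ω = d (o true (φ true h) • ω) - d ω at this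
          linarith
        · rw [if_pos rfl, add_zero]
      intro k k' h ω
      show (c k (φ k h) ω + if k = true then 0 else d (o k (φ k h) • ω) - d ω) =
        (c k' (φ k' h) ω + if k' = true then 0 else d (o k' (φ k' h) • ω) - d ω)
      rw [h1, h1])
  let w0 : Γ := Quotient.out (QuotientGroup.mk 1 : Γ ⧸ L)
  let st : ∀ k, G k ⧸ A k := fun k => if k = k0 then (x k w0)⁻¹ else 1
  let ω0 : Om (G := G) L A := ⟨QuotientGroup.mk 1, (Cf T k0 w0)⁻¹ * st⟩
  have hsk0 : sk k0 ω0 = st := by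
    show Cf T k0 w0 * ((Cf T k0 w0)⁻¹ * st) = st
    rw [mul_inv_cancel_left]
  refine ⟨fun y => Φ y ω0, ?_, ?_⟩
  · intro a _ b hb
    show Φ (a * b) ω0 = Φ a ω0 + Φ b ω0
    rw [hΦ, hfix b hb]
  · intro a ha
    show Φ (o k0 a) ω0 = _
    rw [hΦo, hfix _ ((lv.mem k0 a).mpr ha), sub_self, ite_self, add_zero]
    show v k0 (sk k0 ω0 (!k0)) * cocy (g k0) a (x k0 w0 * sk k0 ω0 k0) = _
    rw [hsk0]
    have h1 : st (!k0) = 1 := if_neg (by cases k0 <;> simp)
    have h2 : st k0 = (x k0 w0)⁻¹ := if_pos rfl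
    rw [h1, h2, mul_inv_cancel, cocy_base (hg k0) ha]

/-- The extension of the homomorphisms. -/
theorem Lev.ext (hΓ : Amalg φ o) (lv : Lev φ o A L x T Θ) (c0 : H)
    (hc0 : ∀ k h, φ k h ∈ A k ↔ ∃ n : ℤ, h = c0 ^ n) (hcomm : ∀ a b : H, a * b = b * a)
    (hf : c0 = 1 ∨ ∃ f : ∀ k, G k → ℤ, ∀ k, HomOn (A k) (f k) ∧ f k (φ k c0) = 1)
    (k0 : Bool) {h : G k0 → ℤ} (hh : HomOn (A k0) h) :
    ∃ F : Γ → ℤ, HomOn L F ∧ ∀ a ∈ A k0, F (o k0 a) = h a := by
  classical
  rcases hf with rfl | ⟨f, hf⟩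
  · obtain ⟨F, hF, hF'⟩ := lv.ext_weights hΓ 1 hc0 hcomm
      (Function.update (fun _ _ => 0) k0 h) (by
        intro k
        by_cases hk : k = k0
        · subst hk
          rw [Function.update_self]
          exact hh
        · rw [Function.update_of_ne hk]
          exact HomOn.zero) (fun k _ => if k = k0 then 1 else 0) (by
        have h1 : ∀ k (p : G k ⧸ A k), cocy (Function.update (fun _ _ => (0 : ℤ)) k0 h k)
            (φ k 1) p = 0 := by
          intro k p
          rw [map_one]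
          by_cases hk : k = k0
          · subst hk
            rw [Function.update_self]
            exact cocy_one hh p
          · rw [Function.update_of_ne hk]
            rfl
        intro a b
        rw [h1, h1, mul_zero, mul_zero]) k0
    refine ⟨F, hF, fun a ha => ?_⟩
    rw [hF' a ha, if_pos rfl, one_mul, Function.update_self]
  · have hg : ∀ k, HomOn (A k) (Function.update f k0 h k) := by
      intro k
      by_cases hk : k = k0
      · subst hk
        rw [Function.update_self]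
        exact hh
      · rw [Function.update_of_ne hk]
        exact (hf k).1
    obtain ⟨F, hF, hF'⟩ := lv.ext_weights hΓ c0 hc0 hcomm
      (Function.update f k0 h) hg
      (fun k b => cocy (Function.update f k0 h (!k)) (φ (!k) c0) b) (by
        intro a b
        show cocy (Function.update f k0 h false) (φ false c0) b *
          cocy (Function.update f k0 h true) (φ true c0) a =
          cocy (Function.update f k0 h true) (φ true c0) a *
          cocy (Function.update f k0 h false) (φ false c0) b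
        ring) k0
    refine ⟨F, hF, fun a ha => ?_⟩
    have h1 : (!k0) ≠ k0 := by cases k0 <;> simp
    rw [hF' a ha, Function.update_self]
    show cocy (Function.update f k0 h (!k0)) (φ (!k0) c0) 1 * h a = h a
    rw [cocy_base (hg _) ((hc0 _ c0).mpr ⟨1, (zpow_one c0).symm⟩), Function.update_of_ne h1,
      (hf (!k0)).2, one_mul]

end ext

end Pool.Agent.J4.H7.RF
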