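import Pool.Agent.J4.H7.RF.Coc

/-! Positions and transitions over the cosets, and their lifts. -/

set_option linter.unusedSectionVars false
set_option linter.dupNamespace false
set_option autoImplicit false

namespace Pool.Agent.J4.H7.RF

open Pool.Agent.R632.VRC Pool.Agent.K4H11.RFRS

universe u v

section one

variable {P Γ H : Type u} [Group P] [Group Γ] [Group H]

/-- the projection -/
def pr {A' A : Subgroup P} (h : A' ≤ A) : P ⧸ A' → P ⧸ A := Subgroup.quotientMapOfLE h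

lemma pr_mk {A' A : Subgroup P} (h : A' ≤ A) (p : P) :
    pr h (QuotientGroup.mk p : P ⧸ A') = QuotientGroup.mk p := rfl

lemma pr_smul {A' A : Subgroup P} (h : A' ≤ A) (g : P) (q : P ⧸ A') :
    pr h (g • q) = g • pr h q := by
  obtain ⟨p, rfl⟩ := QuotientGroup.mk_surjective q
  rfl

lemma pr_mul {A' A : Subgroup P} [A'.Normal] [A.Normal] (h : A' ≤ A) (a b : P ⧸ A') :
    pr h (a * b) = pr h a * pr h b := by
  obtain ⟨p, rfl⟩ := QuotientGroup.mk_surjective a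
  obtain ⟨q, rfl⟩ := QuotientGroup.mk_surjective b
  rfl

lemma pr_one {A' A : Subgroup P} [A'.Normal] [A.Normal] (h : A' ≤ A) : pr h (1 : P ⧸ A') = 1 := rfl

lemma pr_inv {A' A : Subgroup P} [A'.Normal] [A.Normal] (h : A' ≤ A) (a : P ⧸ A') :
    pr h a⁻¹ = (pr h a)⁻¹ := by
  obtain ⟨p, rfl⟩ := QuotientGroup.mk_surjective a
  rfl

lemma smul_mul' {A : Subgroup P} [A.Normal] (g : P) (a b : P ⧸ A) : (g • a) * b = g • (a * b) := by
  obtain ⟨p, rfl⟩ := QuotientGroup.mk_surjective a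
  obtain ⟨q, rfl⟩ := QuotientGroup.mk_surjective b
  show (QuotientGroup.mk (g * p * q) : P ⧸ A) = QuotientGroup.mk (g * (p * q))
  rw [mul_assoc]

lemma smul_eq_of {A : Subgroup P} [hA : A.Normal] {g g' : P} (h : g⁻¹ * g' ∈ A) (a : P ⧸ A) :
    g • a = g' • a := by
  obtain ⟨p, rfl⟩ := QuotientGroup.mk_surjective a
  show (QuotientGroup.mk (g * p) : P ⧸ A) = QuotientGroup.mk (g' * p)
  rw [QuotientGroup.eq]
  have := hA.conj_mem _ h p⁻¹
  convert this using 1
  group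

lemma smul_self_of {A : Subgroup P} [hA : A.Normal] {g : P} (h : g ∈ A) (a : P ⧸ A) : g • a = a := by
  have h1 := smul_eq_of (g := g) (g' := 1) (by rw [mul_one]; exact A.inv_mem h) a
  rw [h1, one_smul]

/-- lifting positions -/
lemma lift_x (e : P →* Γ) {K K' : Subgroup Γ} (hKK : K' ≤ K) (hK' : K'.Normal) {A A' : Subgroup P}
    (hA : A' ≤ A) (hA' : A'.Normal) (hmem : ∀ g, e g ∈ K' → g ∈ A') (x : Γ → P ⧸ A)
    (hx : ∀ g z κ, κ ∈ K → x (e g * z * κ) = g • x z) :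
    ∃ x' : Γ → P ⧸ A', (∀ g z κ, κ ∈ K' → x' (e g * z * κ) = g • x' z) ∧
      ∀ z, pr hA (x' z) = x z := by
  classical
  let r : Setoid Γ :=
    { r := fun z z' => ∃ g, ∃ κ ∈ K', e g * z * κ = z'
      iseqv :=
        { refl := fun z => ⟨1, 1, K'.one_mem, by rw [map_one, one_mul, mul_one]⟩
          symm := by
            rintro z _ ⟨g, κ, hκ, rfl⟩
            exact ⟨g⁻¹, κ⁻¹, K'.inv_mem hκ, by rw [map_inv]; group⟩
          trans := by
            rintro z _ _ ⟨g, κ, hκ, rfl⟩ ⟨g', κ', hκ', rfl⟩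
            exact ⟨g' * g, κ * κ', K'.mul_mem hκ hκ', by rw [map_mul]; group⟩ } }
  let rp : Γ → Γ := fun z => Quotient.out (Quotient.mk r z)
  have hrp : ∀ z, ∃ g, ∃ κ ∈ K', e g * rp z * κ = z := fun z =>
    Quotient.exact (Quotient.out_eq (Quotient.mk r z))
  have hrp' : ∀ g z κ, κ ∈ K' → rp (e g * z * κ) = rp z := by
    intro g z κ hκ
    have h1 : (Quotient.mk r (e g * z * κ)) = Quotient.mk r z :=
      (Quotient.sound (s := r) (show r.r z (e g * z * κ) from ⟨g, κ, hκ, rfl⟩)).symm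
    show Quotient.out (Quotient.mk r (e g * z * κ)) = Quotient.out (Quotient.mk r z)
    rw [h1]
  choose γ κ hκ hγ using hrp
  refine ⟨fun z => γ z • (QuotientGroup.mk (Quotient.out (x (rp z))) : P ⧸ A'), ?_, ?_⟩
  · intro g z κ0 hκ0
    show γ (e g * z * κ0) • (QuotientGroup.mk (Quotient.out (x (rp (e g * z * κ0)))) : P ⧸ A') =
      g • γ z • (QuotientGroup.mk (Quotient.out (x (rp z))) : P ⧸ A')
    rw [hrp' _ _ _ hκ0, ← mul_smul]
    apply smul_eq_of
    apply hmem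
    have h1 := hγ (e g * z * κ0)
    rw [hrp' _ _ _ hκ0] at h1
    have h2 := hγ z
    have h3 : e ((γ (e g * z * κ0))⁻¹ * (g * γ z)) =
        rp z * (κ (e g * z * κ0) * (κ z * κ0)⁻¹) * (rp z)⁻¹ := by
      have h4 : e g * e (γ z) * rp z * (κ z * κ0) = e (γ (e g * z * κ0)) * rp z * κ (e g * z * κ0) := by
        rw [h1]
        conv_rhs => rw [← h2]
        group
      rw [map_mul, map_inv, map_mul]
      have h5 : e g * e (γ z) = e (γ (e g * z * κ0)) * rp z * κ (e g * z * κ0) *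
          (κ z * κ0)⁻¹ * (rp z)⁻¹ := by
        rw [← h4]
        group
      rw [h5]
      group
    rw [h3]
    exact hK'.conj_mem _ (K'.mul_mem (hκ _) (K'.inv_mem (K'.mul_mem (hκ _) hκ0))) _
  · intro z
    show pr hA (γ z • (QuotientGroup.mk (Quotient.out (x (rp z))) : P ⧸ A')) = x z
    rw [pr_smul, pr_mk, QuotientGroup.out_eq', ← hx _ _ _ (hKK (hκ z)), hγ]

/-- lifting transitions -/
lemma lift_T (e : P →* Γ) (φ : H →* P) {K K' : Subgroup Γ} (hKK : K' ≤ K) {A A' : Subgroup P}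
    (hA : A' ≤ A) (x : Γ → P ⧸ A) (T : Γ → P ⧸ A)
    (hT : ∀ h z κ, κ ∈ K → T (e (φ h) * z * κ) = T z) (hTx : ∀ z, ∃ h, T z = φ h • x z)
    (x' : Γ → P ⧸ A') (hx' : ∀ g z κ, κ ∈ K' → x' (e g * z * κ) = g • x' z)
    (hxx : ∀ z, pr hA (x' z) = x z) :
    ∃ T' : Γ → P ⧸ A', (∀ h z κ, κ ∈ K' → T' (e (φ h) * z * κ) = T' z) ∧
      (∀ z, ∃ h, T' z = φ h • x' z) ∧ ∀ z, pr hA (T' z) = T z := by
  classical
  let r : Setoid Γ :=
    { r := fun z z' => ∃ h, ∃ κ ∈ K', e (φ h) * z * κ = z'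
      iseqv :=
        { refl := fun z => ⟨1, 1, K'.one_mem, by rw [map_one, map_one, one_mul, mul_one]⟩
          symm := by
            rintro z _ ⟨g, κ, hκ, rfl⟩
            exact ⟨g⁻¹, κ⁻¹, K'.inv_mem hκ, by rw [map_inv, map_inv]; group⟩
          trans := by
            rintro z _ _ ⟨g, κ, hκ, rfl⟩ ⟨g', κ', hκ', rfl⟩
            exact ⟨g' * g, κ * κ', K'.mul_mem hκ hκ', by rw [map_mul, map_mul]; group⟩ } }
  let rp : Γ → Γ := fun z => Quotient.out (Quotient.mk r z)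
  have hrp : ∀ z, ∃ g, ∃ κ ∈ K', e (φ g) * rp z * κ = z := fun z =>
    Quotient.exact (Quotient.out_eq (Quotient.mk r z))
  have hrp' : ∀ g z κ, κ ∈ K' → rp (e (φ g) * z * κ) = rp z := by
    intro g z κ hκ
    have h1 : (Quotient.mk r (e (φ g) * z * κ)) = Quotient.mk r z :=
      (Quotient.sound (s := r) (show r.r z (e (φ g) * z * κ) from ⟨g, κ, hκ, rfl⟩)).symm
    show Quotient.out (Quotient.mk r (e (φ g) * z * κ)) = Quotient.out (Quotient.mk r z)
    rw [h1]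
  choose hh hhh using hTx
  refine ⟨fun z => φ (hh (rp z)) • x' (rp z), ?_, ?_, ?_⟩
  · intro h z κ hκ
    show φ (hh (rp (e (φ h) * z * κ))) • x' (rp (e (φ h) * z * κ)) = φ (hh (rp z)) • x' (rp z)
    rw [hrp' _ _ _ hκ]
  · intro z
    obtain ⟨g, κ, hκ, hz⟩ := hrp z
    refine ⟨hh (rp z) * g⁻¹, ?_⟩
    show φ (hh (rp z)) • x' (rp z) = φ (hh (rp z) * g⁻¹) • x' z
    have h1 : x' z = φ g • x' (rp z) := by
      conv_lhs => rw [← hz]
      exact hx' _ _ _ hκ
    rw [h1, ← mul_smul, ← map_mul, inv_mul_cancel_right]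
  · intro z
    show pr hA (φ (hh (rp z)) • x' (rp z)) = T z
    obtain ⟨g, κ, hκ, hz⟩ := hrp z
    rw [pr_smul, hxx, ← hhh]
    conv_rhs => rw [← hz]
    exact (hT _ _ _ (hKK hκ)).symm

/-- the induced cocycle -/
noncomputable def cocy {A : Subgroup P} (f : P → ℤ) (g : P) (p : P ⧸ A) : ℤ :=
  f ((Quotient.out (g • p))⁻¹ * g * Quotient.out p)

lemma cocy_mem {A : Subgroup P} (g : P) (p : P ⧸ A) :
    (Quotient.out (g • p))⁻¹ * g * Quotient.out p ∈ A := by
  rw [mul_assoc, ← QuotientGroup.eq, QuotientGroup.out_eq']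
  conv_lhs => rw [← QuotientGroup.out_eq' p]
  rfl

lemma cocy_mul {A : Subgroup P} {f : P → ℤ} (hf : HomOn A f) (g g' : P) (p : P ⧸ A) :
    cocy f (g * g') p = cocy f g (g' • p) + cocy f g' p := by
  unfold cocy
  rw [← hf _ (cocy_mem g _) _ (cocy_mem g' _), mul_smul]
  congr 1
  group

lemma cocy_one {A : Subgroup P} {f : P → ℤ} (hf : HomOn A f) (p : P ⧸ A) :
    cocy f 1 p = 0 := by
  unfold cocy
  rw [one_smul, mul_one, inv_mul_cancel, hf.one]

lemma cocy_base {A : Subgroup P} [hA : A.Normal] {f : P → ℤ} (hf : HomOn A f) {a : P} (ha : a ∈ A) :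
    cocy f a (1 : P ⧸ A) = f a := by
  unfold cocy
  rw [smul_self_of ha]
  have h1 : Quotient.out (1 : P ⧸ A) ∈ A := by
    have h2 : (QuotientGroup.mk (Quotient.out (1 : P ⧸ A)) : P ⧸ A) = 1 := QuotientGroup.out_eq' _
    exact (QuotientGroup.eq_one_iff _).mp h2
  have h3 := hf.conj (A.inv_mem h1) ha
  rwa [inv_inv] at h3

/-- invariance -/
lemma cocy_inv {A : Subgroup P} [hA : A.Normal] {f : P → ℤ} (hf : HomOn A f) {a h : P} (ha : a ∈ A)
    (hc : a * h = h * a) (p : P ⧸ A) : cocy f a (h • p) = cocy f a p := by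
  have h1 := cocy_mul hf a h p
  have h2 := cocy_mul hf h a p
  rw [hc, h2, smul_self_of ha] at h1
  linarith

end one

end Pool.Agent.J4.H7.RF
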