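import Pool.Agent.J4.H7.RF.Level

/-! The next level. -/

set_option linter.unusedSectionVars false
set_option linter.dupNamespace false
set_option autoImplicit false

namespace Pool.Agent.J4.H7.RF

open Pool.Agent.R632.VRC Pool.Agent.K4H11.RFRS

universe u v

lemma step_mono {P : Type*} [Group P] (m : ℕ) {U V : Subgroup P} (h : U ≤ V) : step m U ≤ step m V :=
  fun _ hx => ⟨h hx.1, fun f hf => hx.2 f (hf.mono h)⟩

lemma step_dvd {P : Type*} [Group P] {m m' : ℕ} (h : m ∣ m') (U : Subgroup P) :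
    step m' U ≤ step m U :=
  fun _ hx => ⟨hx.1, fun f hf => (Int.natCast_dvd_natCast.mpr h).trans (hx.2 f hf)⟩

variable {G : Bool → Type u} [∀ i, Group (G i)] {H : Type u} [Group H] {φ : ∀ i, H →* G i}
  {Γ : Type u} [Group Γ] {o : ∀ i, G i →* Γ}

/-- The next level of the tower. -/
theorem next (hΓ : Amalg φ o) (hfg : Group.FG Γ) {A : ∀ k, Subgroup (G k)}
    [hA : ∀ k, (A k).Normal] {L : Subgroup Γ}
    {x T : ∀ k, Γ → G k ⧸ A k} {Θ : Γ → Γ → ∀ k, G k ⧸ A k}
    (lv : Lev φ o A L x T Θ) (c0 : H)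
    (hc0 : ∀ k h, φ k h ∈ A k ↔ ∃ n : ℤ, h = c0 ^ n) (hcomm : ∀ a b : H, a * b = b * a)
    (hf : c0 = 1 ∨ ∃ f : ∀ k, G k → ℤ, ∀ k, HomOn (A k) (f k) ∧ f k (φ k c0) = 1)
    (m : ℕ) (hm : m ≠ 0) {A' : ∀ k, Subgroup (G k)} [hA' : ∀ k, (A' k).Normal]
    (hAA : ∀ k, A' k = step m (A k)) :
    ∃ (L' : Subgroup Γ) (x' T' : ∀ k, Γ → G k ⧸ A' k) (Θ' : Γ → Γ → ∀ k, G k ⧸ A' k),
      Lev φ o A' L' x' T' Θ' ∧ step m (step m L) ≤ L' := by
  classical
  let K' : Subgroup Γ := step m L
  have hLn := lv.normal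
  have hKL : K' ≤ L := step_le m L
  have hKn : K'.Normal := step_normal m L
  have hKf : K'.FiniteIndex := by
    have := lv.fin
    exact step_finiteIndex hm this (Subgroup.fg_of_index_ne_zero _)
  have hmA : ∀ k (g : G k), g ∈ A' k ↔ g ∈ step m (A k) := fun k g => by rw [hAA]
  have hle : ∀ k, A' k ≤ A k := fun k g hg => ((hmA k g).mp hg).1
  have hmem : ∀ k g, o k g ∈ K' ↔ g ∈ A' k := by
    intro k g
    rw [hmA]
    constructor
    · intro hg
      refine ⟨(lv.mem k g).mp hg.1, fun h hh => ?_⟩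
      obtain ⟨F, hF, hF'⟩ := lv.ext hΓ c0 hc0 hcomm hf k hh
      rw [← hF' g ((lv.mem k g).mp hg.1)]
      exact hg.2 F hF
    · intro hg
      refine ⟨(lv.mem k g).mpr hg.1, fun F hF => ?_⟩
      refine hg.2 (fun y => F (o k y)) ?_
      intro a ha b hb
      show F (o k (a * b)) = F (o k a) + F (o k b)
      rw [map_mul, hF _ ((lv.mem k a).mpr ha) _ ((lv.mem k b).mpr hb)]
  obtain ⟨x', T', hd', hxx, hTT⟩ := exists_lift hKL hKn hle hA' (fun k g hg => (hmem k g).mp hg) lv.dat
  obtain ⟨Θ', hc', ho'⟩ := exists_Th hΓ hd'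
  obtain ⟨L', hL'n, hL'⟩ := exists_ker hΓ hd' hKn hc' ho'
  have hL'K : L' ≤ K' := fun y hy => ((hL' y).mp hy).1
  -- compatibility
  have hpC : ∀ b z k, pr (hle k) (Cf T' b z k) = Cf T b z k := by
    intro b z k
    show pr (hle k) (if b = true then 1 else if k = true then T' k z else (T' k z)⁻¹) =
      (if b = true then 1 else if k = true then T k z else (T k z)⁻¹)
    split_ifs
    · rfl
    · exact hTT k z
    · rw [pr_inv, hTT]
  have hpΘ : ∀ y w k, pr (hle k) (Θ' y w k) = Θ y w k := by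
    refine gen_ind hΓ (fun w k => ?_) (fun b g y ih w k => ?_)
    · rw [Th_one hc', Th_one lv.coc]
      rfl
    · rw [hc', lv.coc, ho', lv.coc_o]
      show pr (hle k) (((Cf T' b (o b g * (y * w)) k)⁻¹ * Cf T' b (y * w) k) * Θ' y w k) =
        ((Cf T b (o b g * (y * w)) k)⁻¹ * Cf T b (y * w) k) * Θ y w k
      rw [pr_mul, pr_mul, pr_inv, hpC, hpC, ih]
  -- the rational steps
  have hreach : step m K' ≤ L' := by
    intro y hy
    rw [hL']
    refine ⟨hy.1, fun w => ?_⟩
    funext k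
    show Θ' y w k = 1
    have hkerp : ∀ u : G k ⧸ A' k, pr (hle k) u = 1 → Quotient.out u ∈ A k := by
      intro u hu
      rw [← QuotientGroup.out_eq' u, pr_mk] at hu
      exact (QuotientGroup.eq_one_iff _).mp hu
    have hker : ∀ z ∈ K', Quotient.out (Θ' z w k) ∈ A k := by
      intro z hz
      apply hkerp
      rw [hpΘ, lv.one z (hKL hz)]
      rfl
    have hgoal : Quotient.out (Θ' y w k) ∈ A' k := by
      rw [hmA]
      refine ⟨hker y hy.1, fun f hff => ?_⟩
      have hout1 : ((f (Quotient.out (1 : G k ⧸ A' k)) : ℤ) : ZMod m) = 0 := by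
        rw [ZMod.intCast_zmod_eq_zero_iff_dvd]
        have h1 : Quotient.out (1 : G k ⧸ A' k) ∈ A' k := by
          have h2 : (QuotientGroup.mk (Quotient.out (1 : G k ⧸ A' k)) : G k ⧸ A' k) = 1 :=
            QuotientGroup.out_eq' _
          exact (QuotientGroup.eq_one_iff _).mp h2
        rw [hmA] at h1
        exact h1.2 f hff
      have h1 := ab' hΓ K' hKn m (fun z => ((f (Quotient.out (Θ' z w k)) : ℤ) : ZMod m))
        (by
          intro a ha b hb
          show ((f (Quotient.out (Θ' (a * b) w k)) : ℤ) : ZMod m) =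
            ((f (Quotient.out (Θ' a w k)) : ℤ) : ZMod m) + ((f (Quotient.out (Θ' b w k)) : ℤ) : ZMod m)
          have h2 : Θ' (a * b) w k = Θ' a w k * Θ' b w k := by
            rw [hc']
            have h3 : b * w = w * (w⁻¹ * b * w) := by group
            have h4 : w⁻¹ * b * w ∈ K' := by
              have := hKn.conj_mem _ hb w⁻¹
              rwa [inv_inv] at this
            rw [h3, Th_right hΓ hd' hc' ho' h4]
            rfl
          set u1 := Θ' a w k with hu1
          set u2 := Θ' b w k with hu2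
          have hu1A := hker a ha
          have hu2A := hker b hb
          rw [← hu1] at hu1A
          rw [← hu2] at hu2A
          have h5 : (Quotient.out u1 * Quotient.out u2)⁻¹ * Quotient.out (u1 * u2) ∈ A' k := by
            rw [← QuotientGroup.eq, QuotientGroup.out_eq']
            show (QuotientGroup.mk (Quotient.out u1) : G k ⧸ A' k) *
              QuotientGroup.mk (Quotient.out u2) = u1 * u2
            rw [QuotientGroup.out_eq', QuotientGroup.out_eq']
          have h6 := h5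
          rw [hmA] at h6
          have h7 : f (Quotient.out (u1 * u2)) = f (Quotient.out u1) + f (Quotient.out u2) +
              f ((Quotient.out u1 * Quotient.out u2)⁻¹ * Quotient.out (u1 * u2)) := by
            rw [← hff _ hu1A _ hu2A, ← hff _ ((A k).mul_mem hu1A hu2A) _ (hle k h5)]
            congr 1
            group
          rw [h2, h7]
          push_cast
          rw [(ZMod.intCast_zmod_eq_zero_iff_dvd _ _).mpr (h6.2 f hff)]
          ring)
        (by
          intro b g hg z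
          show ((f (Quotient.out (Θ' (z⁻¹ * o b g * z) w k)) : ℤ) : ZMod m) = 0
          have h2 : Θ' (z⁻¹ * o b g * z) w = 1 := by
            rw [hc', hc', Th_ell hd' hKn ho' hg, mul_one]
            have h3 : o b g * (z * w) = z * w * ((z * w)⁻¹ * o b g * (z * w)) := by group
            have h4 : (z * w)⁻¹ * o b g * (z * w) ∈ K' := by
              have := hKn.conj_mem _ hg (z * w)⁻¹
              rwa [inv_inv] at this
            rw [h3, Th_right hΓ hd' hc' ho' h4, ← hc', inv_mul_cancel, Th_one hc']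
          rw [h2]
          exact hout1) hy
      exact (ZMod.intCast_zmod_eq_zero_iff_dvd _ _).mp h1
    rw [← QuotientGroup.out_eq' (Θ' y w k)]
    exact (QuotientGroup.eq_one_iff _).mpr hgoal
  have hfin : L'.FiniteIndex := by
    have h1 : (step m K').FiniteIndex := step_finiteIndex hm hKf (Subgroup.fg_of_index_ne_zero _)
    exact Subgroup.finiteIndex_of_le hreach
  refine ⟨L', x', T', Θ', ⟨hL'n, hfin, fun k g => ?_, ⟨?_, ?_, hd'.hTx⟩, hc', ho', ?_⟩, hreach⟩
  · constructor
    · intro hg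
      exact (hmem k g).mp (hL'K hg)
    · intro hg
      rw [hL']
      have h1 := (hmem k g).mpr hg
      exact ⟨h1, fun w => Th_ell hd' hKn ho' h1 w⟩
  · intro k g z κ hκ
    exact hd'.hx k g z κ (hL'K hκ)
  · intro k h z κ hκ
    exact hd'.hT k h z κ (hL'K hκ)
  · intro y hy w
    exact ((hL' y).mp hy).2 w

/-- The first level. -/
theorem first (hΓ : Amalg φ o) {A : ∀ k, Subgroup (G k)} [hA : ∀ k, (A k).Normal]
    (hAf : ∀ k, (A k).FiniteIndex) {K : Subgroup Γ} (hKn : K.Normal) (hKf : K.FiniteIndex)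
    (hmem : ∀ k g, o k g ∈ K ↔ g ∈ A k) :
    ∃ (L : Subgroup Γ) (x T : ∀ k, Γ → G k ⧸ A k) (Θ : Γ → Γ → ∀ k, G k ⧸ A k),
      Lev φ o A L x T Θ := by
  classical
  have hd0 : Dat φ o (⊤ : Subgroup Γ) (fun k => (⊤ : Subgroup (G k))) (fun _ _ => QuotientGroup.mk 1)
      (fun _ _ => QuotientGroup.mk 1) := by
    refine ⟨fun k g z κ _ => ?_, fun k h z κ _ => rfl, fun k z => ⟨1, ?_⟩⟩
    · show (QuotientGroup.mk 1 : G k ⧸ (⊤ : Subgroup (G k))) = QuotientGroup.mk (g * 1)
      rw [QuotientGroup.eq]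
      exact Subgroup.mem_top _
    · show (QuotientGroup.mk 1 : G k ⧸ (⊤ : Subgroup (G k))) = QuotientGroup.mk (φ k 1 * 1)
      rw [map_one, mul_one]
  obtain ⟨x, T, hd, -, -⟩ := exists_lift (K := ⊤) (K' := K) le_top hKn (fun k => le_top) hA
    (fun k g hg => (hmem k g).mp hg) hd0
  obtain ⟨Θ, hc, ho⟩ := exists_Th hΓ hd
  obtain ⟨L, hLn, hL⟩ := exists_ker hΓ hd hKn hc ho
  have hLK : L ≤ K := fun y hy => ((hL y).mp hy).1
  have hfin : L.FiniteIndex := by
    have hfq : ∀ k, Finite (G k ⧸ A k) := fun k => Subgroup.finite_quotient_of_finiteIndex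
    have hfK : Finite (Γ ⧸ K) := Subgroup.finite_quotient_of_finiteIndex
    let κ : K →* (Γ ⧸ K → ∀ k, G k ⧸ A k) := MonoidHom.mk' (fun y q => Θ y (Quotient.out q)) (by
      intro a b
      funext q
      show Θ ((a : Γ) * b) (Quotient.out q) = Θ a (Quotient.out q) * Θ b (Quotient.out q)
      have h3 : (b : Γ) * Quotient.out q = Quotient.out q * ((Quotient.out q)⁻¹ * b * Quotient.out q) := by
        group
      have h4 : (Quotient.out q)⁻¹ * (b : Γ) * Quotient.out q ∈ K := by
        have := hKn.conj_mem _ b.2 (Quotient.out q)⁻¹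
        rwa [inv_inv] at this
      rw [hc, h3, Th_right hΓ hd hc ho h4])
    have h1 : κ.ker.FiniteIndex := inferInstance
    have h2 : (κ.ker.map K.subtype).FiniteIndex := by
      constructor
      rw [Subgroup.index_map_subtype]
      exact mul_ne_zero h1.index_ne_zero hKf.index_ne_zero
    refine Subgroup.finiteIndex_of_le (H := κ.ker.map K.subtype) ?_
    rintro _ ⟨y, hy, rfl⟩
    show (y : Γ) ∈ L
    rw [hL]
    refine ⟨y.2, fun w => ?_⟩
    have h3 : κ y = 1 := hy
    have h4 := congrFun h3 (QuotientGroup.mk w)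
    have h5 : Θ y (Quotient.out (QuotientGroup.mk w : Γ ⧸ K)) = 1 := h4
    have h6 : Quotient.out (QuotientGroup.mk w : Γ ⧸ K) =
        w * (w⁻¹ * Quotient.out (QuotientGroup.mk w : Γ ⧸ K)) := by group
    have h7 : w⁻¹ * Quotient.out (QuotientGroup.mk w : Γ ⧸ K) ∈ K := by
      rw [← QuotientGroup.eq, QuotientGroup.out_eq']
    rw [h6, Th_right hΓ hd hc ho h7] at h5
    exact h5
  refine ⟨L, x, T, Θ, ⟨hLn, hfin, fun k g => ?_, ⟨?_, ?_, hd.hTx⟩, hc, ho, ?_⟩⟩
  · constructor
    · intro hg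
      exact (hmem k g).mp (hLK hg)
    · intro hg
      rw [hL]
      have h1 := (hmem k g).mpr hg
      exact ⟨h1, fun w => Th_ell hd hKn ho h1 w⟩
  · intro k g z κ hκ
    exact hd.hx k g z κ (hLK hκ)
  · intro k h z κ hκ
    exact hd.hT k h z κ (hLK hκ)
  · intro y hy w
    exact ((hL y).mp hy).2 w

end Pool.Agent.J4.H7.RF
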