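import Pool.Agent.J4.H7.RF.Fin

/-! The case of two groups. -/

set_option linter.unusedSectionVars false
set_option linter.dupNamespace false
set_option autoImplicit false

namespace Pool.Agent.J4.H7.RF

open Pool.Agent.R632.VRC Pool.Agent.K4H11.RFRS

universe u v

/-- groups with trivial intersection of the tower are torsion free -/
lemma tt_torsion {P : Type u} [Group P] {N : Subgroup P} (hT : Pool.Agent.K4H11.RFRS.TT N) {x : P}
    (hx : x ∈ N) {n : ℕ} (hn : 0 < n) (h : x ^ n = 1) : x = 1 := by
  apply hT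
  intro i
  induction i with
  | zero => exact hx
  | succ i ih =>
    refine ⟨ih, fun f hf => ?_⟩
    have h1 := hf.zpow ih n
    rw [zpow_natCast, h, hf.one] at h1
    rcases mul_eq_zero.mp h1.symm with h2 | h2
    · exact absurd h2 (by exact_mod_cast hn.ne')
    · rw [h2]
      exact dvd_zero _

theorem two {P Q H : Type u} [Group P] [Group Q] [Group H] (hP : Group.FG P) (hQ : Group.FG Q)
    (a : H →* P) (b : H →* Q) (ha : Function.Injective a) (hb : Function.Injective b) {Γ : Type u}
    [Group Γ] {i : P →* Γ} {j : Q →* Γ} (hΓ : Amalg (famHom a b) (famOut i j))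
    (hfg : Group.FG Γ) (c : H)
    (hc : ∀ h, ∃ n : ℤ, h = c ^ n)
    {K : Subgroup P} (hK : K.FiniteIndex) (hKr : K4H11.RFRS.IsRFRS K)
    {L : Subgroup Q} (hL : L.FiniteIndex) (hLr : K4H11.RFRS.IsRFRS L) :
    ∃ M : Subgroup Γ, M.FiniteIndex ∧ Pool.Agent.K4H11.RFRS.TT M := by
  have hcomm : ∀ x y : H, x * y = y * x := by
    intro x y
    obtain ⟨n, rfl⟩ := hc x
    obtain ⟨m, rfl⟩ := hc y
    rw [← zpow_add, ← zpow_add, add_comm]
  by_cases hfo : IsOfFinOrder c
  · -- the finite case
    obtain ⟨n, hn0, hn⟩ := isOfFinOrder_iff_pow_eq_one.mp hfo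
    have hKT : Pool.Agent.K4H11.RFRS.TT K.normalCore := hKr.TT.mono (Subgroup.normalCore_le _)
    have hLT : Pool.Agent.K4H11.RFRS.TT L.normalCore := hLr.TT.mono (Subgroup.normalCore_le _)
    have hpn : ∀ h : H, h ^ n = 1 := by
      intro h
      obtain ⟨q, rfl⟩ := hc h
      rw [← zpow_natCast, ← zpow_mul, mul_comm, zpow_mul, zpow_natCast, hn, one_zpow]
    refine main hΓ hfg hcomm (bs (T := fun i => Subgroup (Fam P Q i)) K.normalCore L.normalCore)
      ?_ ?_ ?_ 1 ?_ (Or.inl rfl)
    · rintro (_ | _)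
      · exact (inferInstance : L.normalCore.Normal)
      · exact (inferInstance : K.normalCore.Normal)
    · rintro (_ | _)
      · exact (inferInstance : L.normalCore.FiniteIndex)
      · exact (inferInstance : K.normalCore.FiniteIndex)
    · rintro (_ | _)
      · exact hLT
      · exact hKT
    · rintro (_ | _) h
      · constructor
        · intro hh
          have h1 : b h ∈ L.normalCore := hh
          have h2 := tt_torsion hLT h1 hn0 (by rw [← map_pow, hpn, map_one])
          exact ⟨0, by rw [zpow_zero]; exact hb (by rw [h2, map_one])⟩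
        · rintro ⟨q, rfl⟩
          show b (1 ^ q) ∈ L.normalCore
          rw [one_zpow, map_one]
          exact L.normalCore.one_mem
      · constructor
        · intro hh
          have h1 : a h ∈ K.normalCore := hh
          have h2 := tt_torsion hKT h1 hn0 (by rw [← map_pow, hpn, map_one])
          exact ⟨0, by rw [zpow_zero]; exact ha (by rw [h2, map_one])⟩
        · rintro ⟨q, rfl⟩
          show a (1 ^ q) ∈ K.normalCore
          rw [one_zpow, map_one]
          exact K.normalCore.one_mem
  · -- the infinite case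
    have hinf : ∀ n : ℤ, c ^ n = 1 → n = 0 := by
      intro n hn
      by_contra h0
      exact hfo (isOfFinOrder_iff_zpow_eq_one.mpr ⟨n, h0, hn⟩)
    have hac : ∀ n : ℤ, (a c) ^ n = 1 → n = 0 := by
      intro n hn
      apply hinf
      apply ha
      rw [map_zpow, hn, map_one]
    have hbc : ∀ n : ℤ, (b c) ^ n = 1 → n = 0 := by
      intro n hn
      apply hinf
      apply hb
      rw [map_zpow, hn, map_one]
    obtain ⟨k, hk0, hk⟩ := exists_data_gen hP hK hKr hac
    obtain ⟨l, hl0, hl⟩ := exists_data_gen hQ hL hLr hbc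
    obtain ⟨A, hAn, hAf, hAT, hAc, ψ, hψ, hψc⟩ := hk l hl0
    obtain ⟨B, hBn, hBf, hBT, hBc, χ, hχ, hχc⟩ := hl k hk0
    rw [mul_comm l k] at hχc hBc
    refine main hΓ hfg hcomm (bs (T := fun i => Subgroup (Fam P Q i)) A B)
      ?_ ?_ ?_ (c ^ (k * l)) ?_ (Or.inr ⟨bs (T := fun i => Fam P Q i → ℤ) ψ χ, ?_⟩)
    · rintro (_ | _)
      · exact hBn
      · exact hAn
    · rintro (_ | _)
      · exact hBf
      · exact hAf
    · rintro (_ | _)
      · exact hBT
      · exact hAT
    · have hz : ∀ h : H, ∀ n : ℤ, h = c ^ n →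
          ((∃ q : ℤ, h = (c ^ (k * l)) ^ q) ↔ ((k * l : ℕ) : ℤ) ∣ n) := by
        rintro h n rfl
        constructor
        · rintro ⟨q, hq⟩
          rw [← zpow_natCast, ← zpow_mul] at hq
          have h1 : c ^ (n - ((k * l : ℕ) : ℤ) * q) = 1 := by
            rw [zpow_sub, hq, mul_inv_cancel]
          exact ⟨q, by linarith [hinf _ h1]⟩
        · rintro ⟨q, rfl⟩
          exact ⟨q, by rw [zpow_mul, zpow_natCast]⟩
      rintro (_ | _) h
      · obtain ⟨n, hn⟩ := hc h
        rw [hz h n hn, ← hBc, hn]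
        show b (c ^ n) ∈ B ↔ _
        rw [map_zpow]
      · obtain ⟨n, hn⟩ := hc h
        rw [hz h n hn, ← hAc, hn]
        show a (c ^ n) ∈ A ↔ _
        rw [map_zpow]
    · rintro (_ | _)
      · refine ⟨hχ, ?_⟩
        show χ (b (c ^ (k * l))) = 1
        rw [map_pow]
        exact hχc
      · refine ⟨hψ, ?_⟩
        show ψ (a (c ^ (k * l))) = 1
        rw [map_pow]
        exact hψc

end Pool.Agent.J4.H7.RF
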